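import Pool.Agent.U180.DP.Stm2

/-!
# Project DP, package START: the probability of the event `start`
-/

set_option autoImplicit false

open MeasureTheory ProbabilityTheory Filter Topology

namespace Pool.Agent.U44.DP

open Pool.Agent.U180.DP

lemma amp_nonneg (A : ℝ) (p : ℕ) : 0 ≤ amp A p :=
  div_nonneg (Nat.cast_nonneg _) (Real.rpow_nonneg (Real.log_natCast_nonneg p) _)

lemma prb_nonneg (A x y : ℝ) (p : ℕ) : 0 ≤ prb A x y p :=
  div_nonneg (le_max_left _ _) (amp_nonneg A p)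

lemma len_add (a m x y : ℝ) (_hm : 0 ≤ m) (hy : 0 ≤ y) :
    max 0 (min (a + m) (x - 1 + (1 + y)) - max a (x - 1)) =
      max 0 (min (a + m) (x + y) - max a x) + max 0 (min (a + m) (x - 1 + 1) - max a (x - 1)) := by
  have e1 : x - 1 + (1 + y) = x + y := by ring
  have e2 : x - 1 + 1 = x := by ring
  rw [e1, e2]
  rcases le_total (a + m) x with h1 | h1
  · rw [min_eq_left (by linarith : a + m ≤ x + y), min_eq_left h1,
      max_eq_left (by have := le_max_right a x; linarith : a + m - max a x ≤ 0)]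
    ring
  · rw [min_eq_right h1]
    rcases le_total a x with h2 | h2
    · rw [max_eq_right h2]
      have h3 : 0 ≤ min (a + m) (x + y) - x := by
        have : x ≤ min (a + m) (x + y) := le_min h1 (by linarith)
        linarith
      have h4 : 0 ≤ x - max a (x - 1) := by
        have : max a (x - 1) ≤ x := max_le h2 (by linarith)
        linarith
      rw [max_eq_right h3, max_eq_right h4, max_eq_right (by linarith)]
      ring
    · rw [max_eq_left h2, max_eq_left (by linarith : x - 1 ≤ a),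
        max_eq_left (by linarith : x - a ≤ 0), add_zero]

lemma prb_add (A x y : ℝ) (p : ℕ) (hy : 0 ≤ y) :
    prb A (x - 1) (1 + y) p = prb A x y p + prb A (x - 1) 1 p := by
  unfold prb
  rw [← add_div, len_add _ _ _ _ (amp_nonneg A p) hy]

lemma prb_zero (A x : ℝ) (p : ℕ) (hp : x < p) : prb A (x - 1) 1 p = 0 := by
  unfold prb
  have h1 : min ((p : ℝ) + amp A p) (x - 1 + 1) - max (p : ℝ) (x - 1) ≤ 0 := by
    have h2 := min_le_right ((p : ℝ) + amp A p) (x - 1 + 1)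
    have h3 := le_max_left (p : ℝ) (x - 1)
    linarith
  rw [max_eq_left h1, zero_div]

lemma one_sub_sum_le {ι : Type*} (S : Finset ι) (s : ι → ℝ) (h0 : ∀ i ∈ S, 0 ≤ s i)
    (h1 : ∀ i ∈ S, s i ≤ 1) : 1 - ∑ i ∈ S, s i ≤ ∏ i ∈ S, (1 - s i) ∧
      0 ≤ ∏ i ∈ S, (1 - s i) ∧ ∏ i ∈ S, (1 - s i) ≤ 1 := by
  classical
  induction S using Finset.induction_on with
  | empty => simp
  | insert a S ha ih =>
    rw [Finset.sum_insert ha, Finset.prod_insert ha]
    obtain ⟨i1, i2, i3⟩ := ih (fun i hi => h0 i (Finset.mem_insert_of_mem hi))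
      (fun i hi => h1 i (Finset.mem_insert_of_mem hi))
    have a0 := h0 a (Finset.mem_insert_self _ _)
    have a1 := h1 a (Finset.mem_insert_self _ _)
    refine ⟨?_, mul_nonneg (by linarith) i2, ?_⟩
    · nlinarith
    · nlinarith

lemma prod_le {ι : Type*} (S : Finset ι) (s : ι → ℝ)
    (h1 : ∀ i ∈ S, s i ≤ 1) (hs0 : 0 ≤ ∑ i ∈ S, s i) (hs : ∑ i ∈ S, s i ≤ 1) :
    ∏ i ∈ S, (1 - s i) ≤ 1 - ∑ i ∈ S, s i + (∑ i ∈ S, s i) ^ 2 := by
  have h2 : ∏ i ∈ S, (1 - s i) ≤ Real.exp (-∑ i ∈ S, s i) := by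
    rw [← Finset.sum_neg_distrib, Real.exp_sum]
    exact Finset.prod_le_prod (fun i hi => by linarith [h1 i hi])
      (fun i _ => Real.one_sub_le_exp_neg _)
  have h3 := Real.abs_exp_sub_one_sub_id_le (x := -∑ i ∈ S, s i)
    (by rw [abs_neg, abs_of_nonneg hs0]; exact hs)
  have h4 := (abs_le.1 h3).2
  nlinarith

lemma ar0 {e t : ℝ} (he0 : 0 < e) (ht0 : 0 < t) (ht1 : 1 ≤ t) (ht : 8 ≤ e * t) : 1 / t ^ 4 ≤ e / 8 := by
  rw [div_le_iff₀ (by positivity)]
  have h5 : t ≤ t ^ 4 := by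
    calc t = t * 1 := by ring
      _ ≤ t * t ^ 3 := mul_le_mul_of_nonneg_left (one_le_pow₀ ht1) ht0.le
      _ = t ^ 4 := by ring
  have h6 : e * t ≤ e * t ^ 4 := mul_le_mul_of_nonneg_left h5 he0.le
  linarith

lemma ar1 {e M L R : ℝ} (he0 : 0 < e) (he1 : e ≤ 1 / 4) (heM : 8 ≤ e * M) (hM0 : 0 < M)
    (hL0 : 0 < L) (hLM : L ≤ M + 1) (hR : R ≤ 1 / M + 1 / M ^ 2) : R ≤ (1 + e / 2) / L := by
  refine hR.trans ?_
  rw [div_add_div _ _ hM0.ne' (by positivity), div_le_div_iff₀ (by positivity) hL0]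
  have h6 : L ≤ (1 + e / 8) * M := by nlinarith
  have h7 : (1 : ℝ) * M ^ 2 + M * 1 ≤ (1 + e / 8) * M ^ 2 := by nlinarith
  have h8 : (1 * M ^ 2 + M * 1) * L ≤ ((1 + e / 8) * M ^ 2) * ((1 + e / 8) * M) := by
    apply mul_le_mul h7 h6 hL0.le (by positivity)
  refine h8.trans ?_
  have h9 : (1 + e / 8) * (1 + e / 8) ≤ 1 + e / 2 := by nlinarith
  have h10 : 0 ≤ M * M ^ 2 := by positivity
  calc (1 + e / 8) * M ^ 2 * ((1 + e / 8) * M) = ((1 + e / 8) * (1 + e / 8)) * (M * M ^ 2) := by ring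
    _ ≤ (1 + e / 2) * (M * M ^ 2) := mul_le_mul_of_nonneg_right h9 h10

lemma ar2 {e M L R : ℝ} (he1 : e ≤ 1 / 4) (heM : 8 ≤ e * M) (hM0 : 0 < M)
    (hML : M ≤ L) (h5 : 1 / M - 1 / M ^ 2 ≤ R) : (1 - e / 8) / L ≤ R := by
  have hL0 : 0 < L := by linarith
  refine le_trans ?_ h5
  have h6 : 1 / M - 1 / M ^ 2 = (1 - 1 / M) * (1 / M) := by field_simp
  rw [h6]
  have h7 : 1 / M ≤ e / 8 := by
    rw [div_le_iff₀ hM0]
    linarith
  have h8 : 1 / L ≤ 1 / M := one_div_le_one_div_of_le hM0 hML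
  have h9 : (1 - e / 8) / L = (1 - e / 8) * (1 / L) := by ring
  rw [h9]
  exact mul_le_mul (by linarith) h8 (by positivity) (by linarith)

lemma ar3 {e q r : ℝ} (he1 : e ≤ 1 / 4) (hq : q ≤ e / 8) (hq0 : 0 ≤ q) (hr0 : 0 ≤ r) :
    r ≤ r / (1 - q) ∧ r / (1 - q) ≤ (1 + e / 4) * r := by
  have g4 : 0 < 1 - q := by linarith
  constructor
  · rw [le_div_iff₀ g4]
    nlinarith
  · rw [div_le_iff₀ g4]
    have g5 : 1 ≤ (1 + e / 4) * (1 - q) := by nlinarith
    calc r = 1 * r := by ring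
      _ ≤ ((1 + e / 4) * (1 - q)) * r := mul_le_mul_of_nonneg_right g5 hr0
      _ = (1 + e / 4) * r * (1 - q) := by ring

lemma ar4 {e L S F : ℝ} (he0 : 0 < e) (hL0 : 0 < L) (heL : 8 ≤ e * L) (hS0 : 0 ≤ S)
    (hS4 : S ≤ 2 / L) (hS6 : (1 - e / 8) / L ≤ S) (g1 : S - S ^ 2 ≤ F) : (1 - e) / L ≤ F := by
  have g2 : S ^ 2 ≤ (2 / L) ^ 2 := by gcongr
  have g3 : (2 / L) ^ 2 ≤ (e / 2) / L := by
    rw [div_pow, div_le_div_iff₀ (by positivity) hL0]
    nlinarith
  have g4 : (1 - e) / L + (e / 2) / L + (3 * e / 8) / L = (1 - e / 8) / L := by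
    rw [← add_div, ← add_div]
    congr 1
    ring
  have g5 : 0 ≤ (3 * e / 8) / L := by positivity
  linarith

lemma ar5 {e ε E V F L : ℝ} (he0 : 0 < e) (he1 : e ≤ 1 / 4) (he2 : 4 * e ≤ ε) (hL0 : 0 < L)
    (hE : 0 < E) (hV0 : 0 ≤ V) (hF0 : 0 ≤ F) (c1 : (1 - e) * E ≤ V) (c2 : V ≤ (1 + e) * E)
    (hF1 : F ≤ (1 + e) / L) (hF2 : (1 - e) / L ≤ F) :
    (1 - ε) / L * E ≤ V * F ∧ V * F ≤ (1 + ε) / L * E := by
  have hE1 : 0 ≤ E / L := by positivity
  constructor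
  · have g1 : (1 - e) * E * ((1 - e) / L) ≤ V * F :=
      mul_le_mul c1 hF2 (div_nonneg (by linarith) hL0.le) hV0
    refine le_trans ?_ g1
    have g2 : (1 - e) * E * ((1 - e) / L) = ((1 - e) * (1 - e)) * (E / L) := by ring
    have g3 : (1 - ε) / L * E = (1 - ε) * (E / L) := by ring
    rw [g2, g3]
    apply mul_le_mul_of_nonneg_right _ hE1
    nlinarith
  · have g1 : V * F ≤ (1 + e) * E * ((1 + e) / L) :=
      mul_le_mul c2 hF1 hF0 (by positivity)
    refine g1.trans ?_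
    have g2 : (1 + e) * E * ((1 + e) / L) = ((1 + e) * (1 + e)) * (E / L) := by ring
    have g3 : (1 + ε) / L * E = (1 + ε) * (E / L) := by ring
    rw [g2, g3]
    apply mul_le_mul_of_nonneg_right _ hE1
    nlinarith

theorem t_START (h1 : S_PREC) (h2 : S_LAW) (h3 : S_VOID2) : S_START := by
  intro A ε hA hε
  obtain ⟨e, he⟩ : ∃ e : ℝ, e = min ε 1 / 4 := ⟨_, rfl⟩
  have hm0 : 0 < min ε 1 := lt_min hε one_pos
  have hm1 : min ε 1 ≤ 1 := min_le_right _ _
  have hm2 : min ε 1 ≤ ε := min_le_left _ _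
  have he0 : 0 < e := by rw [he]; linarith
  have he1 : e ≤ 1 / 4 := by rw [he]; linarith
  have he2 : 4 * e ≤ ε := by rw [he]; linarith
  obtain ⟨X1, hX1⟩ := h1 A 1 hA one_pos
  obtain ⟨X3, hX3⟩ := h3 A e hA he0
  refine ⟨max (max (X1 + 1) X3) (Real.exp (8 / e) + 1), ?_⟩
  intro Ω _ P U hU x y hx hy hyL
  have hx1 : X1 + 1 ≤ x := le_trans (le_trans (le_max_left _ _) (le_max_left _ _)) hx
  have hx3 : X3 ≤ x := le_trans (le_trans (le_max_right _ _) (le_max_left _ _)) hx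
  have hx4 : Real.exp (8 / e) + 1 ≤ x := le_trans (le_max_right _ _) hx
  obtain ⟨l1, -, -, l4, -⟩ := h2 Ω P A U hU (by linarith)
  haveI := hU.prob
  have h8 : 32 ≤ 8 / e := by
    rw [le_div_iff₀ he0]
    linarith
  have hexp : 33 ≤ Real.exp (8 / e) := by
    have := Real.add_one_le_exp (8 / e)
    linarith
  obtain ⟨L, hL⟩ : ∃ L : ℝ, L = Real.log x := ⟨_, rfl⟩
  obtain ⟨M, hM⟩ : ∃ M : ℝ, M = Real.log (x - 1) := ⟨_, rfl⟩
  have hM8 : 8 / e ≤ M := by
    rw [hM, Real.le_log_iff_exp_le (by linarith)]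
    linarith
  have hML : M ≤ L := by
    rw [hM, hL]
    exact Real.log_le_log (by linarith) (by linarith)
  have hLM : L ≤ M + 1 := by
    rw [hM, hL]
    have e1 : Real.log (x - 1) + 1 = Real.log ((x - 1) * Real.exp 1) := by
      rw [Real.log_mul (by linarith) (Real.exp_pos _).ne', Real.log_exp]
    rw [e1]
    have e2 := Real.add_one_le_exp (1 : ℝ)
    apply Real.log_le_log (by linarith)
    nlinarith
  have hM0 : 0 < M := by linarith
  have hL0 : 0 < L := by linarith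
  have heM : 8 ≤ e * M := by
    have := mul_le_mul_of_nonneg_left hM8 he0.le
    rwa [mul_div_cancel₀ _ he0.ne'] at this
  have heL : 8 ≤ e * L := heM.trans (mul_le_mul_of_nonneg_left hML he0.le)
  obtain ⟨a1, a2⟩ := hX1 (x - 1) 1 (by linarith) one_pos (by
    rw [← hM]
    exact one_le_pow₀ (by linarith))
  obtain ⟨-, b2⟩ := hX1 x y (by linarith) hy (by
    refine hyL.trans ?_
    rw [← hL]
    have : L ^ 3 = L * L ^ 2 := by ring
    rw [this]
    exact mul_le_mul_of_nonneg_right (by linarith) (by positivity))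
  obtain ⟨c1, c2⟩ := hX3 Ω P U hU x y hx3 hy hyL
  rw [← hL] at b2 c1 c2 ⊢
  rw [← hM] at a1 a2
  have hxy : x - 1 + (1 + y) = x + y := by ring
  -- the sets
  have hstart : start A U x y = void A U x y \ void A U (x - 1) (1 + y) := by
    ext ω
    simp only [start, Set.mem_sdiff]
    constructor
    · rintro ⟨u1, u2⟩
      refine ⟨u1, fun u3 => u2 ?_⟩
      intro p hp hc
      exact u3 p hp ⟨hc.1, by linarith [hc.2]⟩
    · rintro ⟨u1, u2⟩
      refine ⟨u1, fun u3 => u2 ?_⟩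
      intro p hp hc
      by_cases hcx : dis A U p ω ≤ x
      · exact u3 p hp ⟨hc.1, by linarith⟩
      · exact u1 p hp ⟨by linarith, by linarith [hc.2]⟩
  have hsub2 : void A U (x - 1) (1 + y) ⊆ void A U x y := by
    intro ω u p hp hc
    exact u p hp ⟨by linarith [hc.1], by linarith [hc.2]⟩
  have hP : P.real (start A U x y) =
      P.real (void A U x y) - P.real (void A U (x - 1) (1 + y)) := by
    rw [hstart]
    exact measureReal_sdiff hsub2 (l1 _ _)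
  obtain ⟨q, hq⟩ : ∃ q : ℕ → ℝ, q = prb A x y := ⟨_, rfl⟩
  obtain ⟨r, hr⟩ : ∃ r : ℕ → ℝ, r = prb A (x - 1) 1 := ⟨_, rfl⟩
  have hr0 : ∀ p, 0 ≤ r p := fun p => by rw [hr]; exact prb_nonneg _ _ _ _
  have hq0 : ∀ p, 0 ≤ q p := fun p => by rw [hq]; exact prb_nonneg _ _ _ _
  have hv1 := l4 x y (by linarith) hy.le
  have hv2 := l4 (x - 1) (1 + y) (by linarith) (by linarith)
  rw [hxy] at hv2
  -- smallness
  have hsm : ∀ t : ℝ, 0 < t → 1 ≤ t → 8 ≤ e * t → 1 / t ^ 4 ≤ e / 8 := fun t ht0 ht1 ht =>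
    ar0 he0 ht0 ht1 ht
  have hqs : ∀ p ∈ prm (x + y), q p ≤ e / 8 := fun p hp => by
    rw [hq]
    exact (b2 p hp).2.trans (hsm L hL0 (by linarith) heL)
  have hsub : prm (x - 1 + 1) ⊆ prm (x + y) := by
    unfold prm
    apply Finset.filter_subset_filter
    apply Finset.range_subset_range.2
    have : ⌊x - 1 + 1⌋₊ ≤ ⌊x + y⌋₊ := Nat.floor_le_floor (by linarith)
    omega
  have hnot : ∀ p ∈ prm (x + y), p ∉ prm (x - 1 + 1) → r p = 0 := by
    intro p hp hnp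
    rw [hr]
    apply prb_zero
    unfold prm at hp hnp
    rw [Finset.mem_filter, Finset.mem_range] at hp hnp
    have h5 : ⌊x - 1 + 1⌋₊ + 1 ≤ p := by
      by_contra hcon
      exact hnp ⟨by omega, hp.2⟩
    have h6 := Nat.lt_floor_add_one (x - 1 + 1)
    have h7 : ((⌊x - 1 + 1⌋₊ + 1 : ℕ) : ℝ) ≤ p := by exact_mod_cast h5
    push_cast at h7
    linarith
  have hrs : ∀ p ∈ prm (x + y), r p ≤ e / 8 := by
    intro p hp
    by_cases hpx : p ∈ prm (x - 1 + 1)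
    · rw [hr]
      exact (a2 p hpx).2.trans (hsm M hM0 (by linarith) heM)
    · rw [hnot p hp hpx]
      linarith
  have hrsum : ∑ p ∈ prm (x + y), r p = ∑ p ∈ prm (x - 1 + 1), prb A (x - 1) 1 p := by
    rw [← hr]
    exact (Finset.sum_subset hsub hnot).symm
  obtain ⟨R, hR⟩ : ∃ R : ℝ, R = ∑ p ∈ prm (x + y), r p := ⟨_, rfl⟩
  rw [← hrsum, ← hR, one_mul] at a1
  obtain ⟨a3, a4⟩ := abs_le.1 a1
  -- R between
  have hR1 : R ≤ (1 + e / 2) / L := ar1 he0 he1 heM hM0 hL0 hLM (by linarith)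
  have hR2 : (1 - e / 8) / L ≤ R := ar2 he1 heM hM0 hML (by linarith)
  -- s
  obtain ⟨s, hs⟩ : ∃ s : ℕ → ℝ, s = fun p => r p / (1 - q p) := ⟨_, rfl⟩
  have hs1 : ∀ p ∈ prm (x + y), r p ≤ s p ∧ s p ≤ (1 + e / 4) * r p := by
    intro p hp
    rw [hs]
    exact ar3 he1 (hqs p hp) (hq0 p) (hr0 p)
  have hs0 : ∀ p ∈ prm (x + y), 0 ≤ s p := fun p hp => (hr0 p).trans (hs1 p hp).1
  have hsle : ∀ p ∈ prm (x + y), s p ≤ 1 := fun p hp => by
    have g1 := (hs1 p hp).2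
    have g2 := hrs p hp
    have g3 := hr0 p
    have g4 : (1 + e / 4) * r p ≤ 2 * r p := mul_le_mul_of_nonneg_right (by linarith) g3
    linarith
  have hprod : P.real (void A U (x - 1) (1 + y)) =
      P.real (void A U x y) * ∏ p ∈ prm (x + y), (1 - s p) := by
    rw [hv1, hv2, ← Finset.prod_mul_distrib]
    refine Finset.prod_congr rfl fun p hp => ?_
    rw [prb_add A x y p hy.le, ← hq, ← hr, hs]
    have g1 := hqs p hp
    have g4 : 1 - q p ≠ 0 := by
      have : 0 < 1 - q p := by linarith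
      exact this.ne'
    simp only
    field_simp
    ring
  obtain ⟨S, hS⟩ : ∃ S : ℝ, S = ∑ p ∈ prm (x + y), s p := ⟨_, rfl⟩
  have hS1 : R ≤ S := by
    rw [hR, hS]
    exact Finset.sum_le_sum fun p hp => (hs1 p hp).1
  have hS2 : S ≤ (1 + e / 4) * R := by
    rw [hR, hS, Finset.mul_sum]
    exact Finset.sum_le_sum fun p hp => (hs1 p hp).2
  have hR0 : 0 ≤ R := by
    rw [hR]
    exact Finset.sum_nonneg fun p _ => hr0 p
  have hS3 : S ≤ (1 + e) / L := by
    refine hS2.trans ?_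
    calc (1 + e / 4) * R ≤ (1 + e / 4) * ((1 + e / 2) / L) :=
          mul_le_mul_of_nonneg_left hR1 (by linarith)
      _ = ((1 + e / 4) * (1 + e / 2)) / L := by ring
      _ ≤ (1 + e) / L := by
          apply div_le_div_of_nonneg_right _ hL0.le
          have g1 : (1 + e / 4) * (1 + e / 2) = 1 + 3 * e / 4 + e * e / 8 := by ring
          have g2 : e * e ≤ 1 / 4 * e := mul_le_mul_of_nonneg_right he1 he0.le
          rw [g1]
          linarith
  have hS0 : 0 ≤ S := hR0.trans hS1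
  have hS4 : S ≤ 2 / L := hS3.trans (div_le_div_of_nonneg_right (by linarith) hL0.le)
  have hS5 : S ≤ 1 := hS4.trans (by rw [div_le_one hL0]; linarith)
  obtain ⟨F, hF⟩ : ∃ F : ℝ, F = 1 - ∏ p ∈ prm (x + y), (1 - s p) := ⟨_, rfl⟩
  obtain ⟨k1, k2, k3⟩ := one_sub_sum_le (prm (x + y)) s hs0 hsle
  have k4 := prod_le (prm (x + y)) s hsle (by rw [← hS]; exact hS0) (by rw [← hS]; exact hS5)
  rw [← hS] at k1 k4
  have hF1 : F ≤ (1 + e) / L := by
    rw [hF]
    linarith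
  have hF2 : (1 - e) / L ≤ F := ar4 he0 hL0 heL hS0 hS4 (hR2.trans hS1) (by
    rw [hF]
    linarith)
  have hF0 : 0 ≤ F := by
    rw [hF]
    linarith
  have hfin : P.real (start A U x y) = P.real (void A U x y) * F := by
    rw [hP, hprod, hF]
    ring
  rw [hfin]
  exact ar5 he0 he1 he2 hL0 (Real.exp_pos _) measureReal_nonneg hF0 c1 c2 hF1 hF2

end Pool.Agent.U44.DP
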